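import Mathlib

open Set Filter Topology MeasureTheory

namespace Pool.Agent.H.MP_85e89d_gt

abbrev E (n : ℕ) := EuclideanSpace ℝ (Fin n)

/-- Data of a parametrised arc: an interval `I` with ends `a`, `b` and a parametrisation `γ`. -/
structure Arc (n : ℕ) where
  a : ℝ
  b : ℝ
  I : Set ℝ
  γ : ℝ → E n

variable {n : ℕ}

/-- The arc as a point set. -/
def Arc.im (A : Arc n) : Set (E n) := A.γ '' A.I

/-- A differentiable rectifiable arc of length at least `δ`. -/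
def Arc.Good (A : Arc n) (δ : ℝ) : Prop :=
  A.a < A.b ∧ Ioo A.a A.b ⊆ A.I ∧ A.I ⊆ Icc A.a A.b ∧ IsEmbedding (fun t : A.I => A.γ t) ∧
    (∀ t ∈ A.I, ∃ v ≠ 0, HasDerivWithinAt A.γ v A.I t) ∧
    ENNReal.ofReal δ ≤ eVariationOn A.γ A.I ∧ eVariationOn A.γ A.I < ⊤

/-- `p` is the limit of one of the two ends of the arc. -/
def Arc.IsEnd (A : Arc n) (p : E n) : Prop :=
  Tendsto A.γ (𝓝[>] A.a) (𝓝 p) ∨ Tendsto A.γ (𝓝[<] A.b) (𝓝 p)

/-- `F` covers `S` by non-overlapping differentiable rectifiable arcs of length at least `δ`. -/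
def Covers (F : Set (Arc n)) (S : Set (E n)) (δ : ℝ) : Prop :=
  (∀ A ∈ F, A.Good δ) ∧ F.PairwiseDisjoint Arc.im ∧ ⋃ A ∈ F, A.im = S

/-- Condition (i) of smoothness at `x`: some open neighbourhood contains no endpoint. -/
def NoEnd (F : Set (Arc n)) (x : E n) : Prop :=
  ∃ N, IsOpen N ∧ x ∈ N ∧ ∀ A ∈ F, ∀ p ∈ N, ¬ A.IsEnd p

lemma wild : ∃ θ : ℝ → ℝ, ∀ U : Set (ℝ × ℝ), IsOpen U → U.Nonempty → ∃ c, (c, θ c) ∈ U := by
  have inj : Function.Injective fun q : ℚ × ℚ => (q.1 : ℝ) + q.2 * √2 := by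
    rintro ⟨a, b⟩ ⟨c, d⟩ h
    simp only at h
    obtain rfl : b = d := by
      by_contra k
      have : (b : ℝ) - d ≠ 0 := sub_ne_zero.2 (by exact_mod_cast k)
      exact irrational_sqrt_two ⟨(c - a) / (b - d), by push_cast; field_simp; linarith⟩
    simpa using h
  refine ⟨Function.extend (fun q : ℚ × ℚ => (q.1 : ℝ) + q.2 * √2) (fun q : ℚ × ℚ => (q.2 : ℝ)) 0,
    fun U hU ⟨⟨x, y⟩, h⟩ => ?_⟩
  obtain ⟨r, r0, hr⟩ := Metric.isOpen_iff.1 hU _ h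
  obtain ⟨b, hb⟩ := exists_rat_near y r0
  obtain ⟨a, ha⟩ := exists_rat_near (x - b * √2) r0
  refine ⟨a + b * √2, hr ?_⟩
  rw [inj.extend_apply _ _ (a, b)]
  simp only [Metric.mem_ball, Prod.dist_eq, Real.dist_eq, max_lt_iff]
  exact ⟨by rwa [abs_sub_comm, sub_add_eq_sub_sub, sub_right_comm], by rwa [abs_sub_comm]⟩

lemma good (A : Arc n) (δ : ℝ) (h1 : A.a < A.b) (h2 : Ioo A.a A.b ⊆ A.I) (h3 : A.I ⊆ Icc A.a A.b)
    (hc : ContDiff ℝ 1 A.γ) (hi : InjOn A.γ (Icc A.a A.b)) (hd : ∀ t, deriv A.γ t ≠ 0)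
    (hl : ∃ s ∈ A.I, ∃ t ∈ A.I, δ ≤ dist (A.γ s) (A.γ t)) : A.Good δ := by
  refine ⟨h1, h2, h3, ?_, fun t _ => ⟨_, hd t,
    (hc.differentiable one_ne_zero t).hasDerivAt.hasDerivWithinAt⟩, ?_, ?_⟩
  · have := ((hc.continuous.comp continuous_subtype_val).isClosedEmbedding
      (injOn_iff_injective.1 hi)).isEmbedding
    exact this.comp (IsEmbedding.inclusion h3)
  · obtain ⟨s, hs, t, ht, h⟩ := hl
    exact (ENNReal.ofReal_le_ofReal h).trans ((edist_dist _ _).ge.trans (eVariationOn.edist_le _ hs ht))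
  · obtain ⟨K, hK⟩ := hc.contDiffOn.exists_lipschitzOnWith one_ne_zero (convex_Icc A.a A.b) isCompact_Icc
    have := hK.locallyBoundedVariationOn A.a A.b ⟨le_rfl, h1.le⟩ ⟨h1.le, le_rfl⟩
    exact (this.mono fun t ht => ⟨h3 ht, h3 ht⟩).lt_top

end Pool.Agent.H.MP_85e89d_gt
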